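import Pool.Agent.Y148.MZ.Main

/-!
# Murre's conjecture (B) and the middle codimension: the equivalences
-/

open CategoryTheory AlgebraicGeometry

universe u v w

namespace Pool.Agent.Y148.MZ

open Pool.Agent.H914 Pool.Agent.H914.VarClass Pool.Agent.H914.VarClass.Obj Pool.Agent.W492.BB
  Pool.Agent.W550.Corr Pool.Agent.TH133 Pool.Agent.TH829.Kim Pool.Agent.Y148 Pool.Agent.Y148.BS
  Pool.Agent.Y148.SS Pool.Agent.Y148.KL Pool.Agent.Y110 Pool.Agent.Y148.BB Pool.Agent.Y148.MN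

set_option linter.unusedSectionVars false
set_option linter.unusedVariables false

variable {k : Type u} [Field k] {𝒱 : VarClass k} {C : TheoryData.{u, v, 0} 𝒱 ℚ}
  [hC : IsChowProj C] {K : Type w} [Field K]
  {H : WeilTheoryData.{u, v, w} C K} [hH : IsWeilProj H] {X Y Z W P T R : 𝒱.Obj}

lemma independent_of_triangular (h : Triangular H X) : Independent H X :=
  independent_of_unipotent (unipotent_of_triangular h)

lemma locNil_on (hg : GradedCommutative H) {S : 𝒱.Obj → Prop}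
    (hS : ∀ X Y, S X → S Y → S (X.prod Y)) (hX : S X) (hCK : ∃ π, IsCK H X π)
    (h : ∀ Y : 𝒱.Obj, S Y → Triangular H Y) : LocNil H X := by
  obtain ⟨π, hπ⟩ := hCK
  exact locNil_of_R0 fun x hx => isNilpotent_on hg hS hX hπ h hx

lemma kills_of {j : ℕ} {Γ : C.A (X.prod X)}
    (hk' : IsHomTrivial H Γ ∨ IsUpperProjector H (2 * j + 1) Γ) (i : ℕ) (hi : i ≤ 2 * j) :
    Kills H Γ i := by
  intro a ha
  rcases hk' with h0 | h0
  · rw [show H.cl Γ = 0 from h0, TheoryData.act_zero]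
  · have h1 := h0 i a ha
    rw [if_neg (by push_cast; omega)] at h1
    exact h1

/-- Both halves of (B). -/
lemma murreB_of (hK : KunnethConjecture H) {A : ∀ X : 𝒱.Obj, C.A X → Prop}
    (hA : HasHyperplaneSections H A) (hnil : LocNil H X) (h0 : ∀ i, ZeroIsAll H X i) :
    MurreB H X := by
  intro π hπ j z
  have hπ' := KL.isChowKunneth_iff.1 hπ
  refine ⟨fun hz => ?_, fun hz => ?_⟩
  · rw [inStep_fil hπ']
    have h1 := h0 j π hπ'
    have h2 : z ∈ fil C π j 0 := by rw [h1]; exact hz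
    exact_mod_cast h2
  · rw [inStep_fil hπ', mem_fil hπ'] at hz
    obtain ⟨hz1, hz2⟩ := hz
    have h1 : z = ∑ a ∈ Finset.range (2 * X.dim + 1), C.act (π a) z := by
      rw [← act_sum, hπ'.sum, act_dg]
    rw [h1]
    refine Finset.sum_eq_zero fun a _ => ?_
    rcases lt_or_ge a j with ha | ha
    · exact vanishing hK hA hnil hπ' ha hz1
    · exact hz2 a (by push_cast; omega)

/-- **Murre's conjecture (B) and the middle codimension.** -/
theorem middleZero_tfae (hg : GradedCommutative H) {A : ∀ X : 𝒱.Obj, C.A X → Prop}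
    (hA : HasHyperplaneSections H A) (Rat : 𝒱.Obj → Prop)
    (hprod : ∀ X Y, Rat X → Rat Y → Rat (X.prod Y))
    (hRat : ∀ X : 𝒱.Obj, ∃ R, Rat R ∧ IsMiddleSummand C X R) :
    List.TFAE [
      ∀ X : 𝒱.Obj, MurreA H X ∧ MurreB H X,
      ∀ X : 𝒱.Obj, MurreA H X ∧ MurreC H X,
      ∀ R, Rat R → MurreA H R ∧ MiddleZeroIsAll H R,
      ∀ R, Rat R → KunnethFor H R ∧ NilpotentInMiddle H R,
      KunnethConjecture H ∧ ∀ X : 𝒱.Obj, NilpotentIfKills H X] := by
  tfae_have 1 → 2 := by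
    intro h X
    refine ⟨(h X).1, murreC_of_independent (independent_of_triangular (triangular_of_diag
      (diag_of_zeroIsAll (zeroIsAll_iff.2 fun π hπ z hz b hb => ?_))))⟩
    have h1 := ((h (X.prod X)).2 π (KL.isChowKunneth_iff.2 hπ) X.dim z).1 hz
    rw [inStep_fil hπ, mem_fil hπ] at h1
    exact h1.2 b (by push_cast; omega)
  tfae_have 2 → 5 := by
    intro h
    have hCK : ∀ X : 𝒱.Obj, ∃ π, IsCK H X π := fun X => by
      obtain ⟨π, hπ⟩ := (h X).1
      exact ⟨π, KL.isChowKunneth_iff.1 hπ⟩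
    have h0 : ∀ (X : 𝒱.Obj) (i : ℕ), ZeroIsAll H X i := fun X => zeroIsAll_of_murreC (h X).2
    have ht : ∀ X : 𝒱.Obj, Triangular H X := fun X =>
      triangular_of_diag (diag_of_zeroIsAll (h0 (X.prod X) X.dim))
    refine ⟨kunneth_of_CK hCK, fun X j hj Γ hΓ hk z hz => ?_⟩
    have hnil : LocNil H X := locNil_on hg (S := fun _ => True) (fun _ _ _ _ => trivial) trivial
      (hCK X) fun Y _ => ht Y
    obtain ⟨π, hπ⟩ := hCK X
    exact locNil_low hnil hπ (fun z hz b hb => zeroIsAll_iff.1 (h0 X j) π hπ z hz b hb) hΓ hk hz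
  tfae_have 5 → 4 := by
    rintro ⟨hK, h⟩ R _
    exact ⟨fun m => hK R m, fun j hj Γ hΓ hk z hz => h R j hj Γ hΓ (kills_of hk) z hz⟩
  tfae_have 4 → 1 := by
    intro h
    have hK : KunnethConjecture H := by
      intro X m
      obtain ⟨R, hR, hXR⟩ := hRat X
      exact kunneth_of_summand hXR (h R hR).1 m
    have hnil : ∀ X : 𝒱.Obj, ∀ N : Cor C X, N ∈ cor0 C X → H.cl (N : C.A (X.prod X)) = 0 →
        IsNilpotent N := by
      intro X
      obtain ⟨R, hR, hXR⟩ := hRat (X.prod X)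
      exact fun Γ hΓ hcl => isNilpotent_of_mid hXR (h R hR).2 hΓ hcl
    have hCK : ∀ X : 𝒱.Obj, ∃ π, IsCK H X π := fun X => exists_isCK_of_nilpotent hK (hnil X)
    have hmid : ∀ X : 𝒱.Obj, MiddleZeroIsAll H X := by
      intro X
      obtain ⟨R, hR, hXR⟩ := hRat X
      exact middleZero_of_mid hXR (h R hR).2 (hCK R)
    intro X
    obtain ⟨π, hπ⟩ := hCK X
    exact ⟨⟨π, KL.isChowKunneth_iff.2 hπ⟩, murreB_of hK hA (locNil_of_cor (hnil X))
      fun i => zeroIsAll_of_indepZero (fun i => independentZero_of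
        (independent_of_triangular (triangular_of_mid (hmid (X.prod X)))) i) i⟩
  tfae_have 2 → 3 := by
    intro h R _
    exact ⟨(h R).1, midZero_iff.2 fun j _ π hπ z hz b hb =>
      zeroIsAll_iff.1 (zeroIsAll_of_murreC (h R).2 j) π hπ z hz b hb⟩
  tfae_have 3 → 4 := by
    intro h R hR
    have hCK : ∃ π, IsCK H R π := by
      obtain ⟨π, hπ⟩ := (h R hR).1
      exact ⟨π, KL.isChowKunneth_iff.1 hπ⟩
    have hnil : LocNil H R := locNil_on hg hprod hR hCK fun Y hY =>
      triangular_of_mid (h _ (hprod Y Y hY hY)).2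
    obtain ⟨π, hπ⟩ := hCK
    refine ⟨fun m => ⟨π m, hπ.deg m, fun l a ha => hπ.actH_eq m l ha⟩,
      fun j hj Γ hΓ hk z hz => ?_⟩
    exact locNil_low hnil hπ (fun z hz b hb => midZero_iff.1 (h R hR).2 j hj π hπ z hz b hb) hΓ
      (kills_of hk) hz
  tfae_finish

end Pool.Agent.Y148.MZ
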