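import Pool.Agent.Y110.Kf
import Pool.Agent.Y110.Main

/-!
# Kimura finiteness and phantoms on a class of varieties closed under products
-/

open CategoryTheory AlgebraicGeometry

universe u v w

namespace Pool.Agent.Y148.MZ

open Pool.Agent.H914 Pool.Agent.H914.VarClass Pool.Agent.H914.VarClass.Obj Pool.Agent.W492.BB
  Pool.Agent.W550.Corr Pool.Agent.TH133 Pool.Agent.TH829.Prime Pool.Agent.TH829.Kim
  Pool.Agent.Y110

set_option linter.unusedSectionVars false

variable {k : Type u} [Field k] {𝒱 : VarClass k} {C : TheoryData.{u, v, 0} 𝒱 ℚ}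
  [hC : IsChowProj C] {K : Type w} [Field K]
  {H : WeilTheoryData.{u, v, w} C K} [hH : IsWeilProj H] {X Y Z W P : 𝒱.Obj}

include hC hH

/-- The existence of powers. -/
lemma exists_pow_on {S : 𝒱.Obj → Prop} (hS : ∀ X Y, S X → S Y → S (X.prod Y)) {X : 𝒱.Obj}
    (hX : S X) {π : ℕ → C.A (X.prod X)} (hπ : IsCK H X π) (n : ℕ) :
    ∃ (P : 𝒱.Obj) (pr : Fin (n + 1) → (P ⟶ X)), S P ∧ IsPow pr ∧ P.dim = (n + 1) * X.dim ∧
      (∃ ρ, IsCK H P ρ) ∧ ∀ e : C.A (X.prod X), C.comp e e = e →
        C.comp (epow pr e) (epow pr e) = epow pr e := by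
  induction n with
  | zero =>
    refine ⟨X, fun _ => 𝟙 X, hX, isPow_one X, by ring, ⟨π, hπ⟩, fun e he => ?_⟩
    have h1 : epow (fun _ : Fin (0 + 1) => 𝟙 X) e = e := by
      unfold epow
      rw [Fin.prod_univ_succ, Fin.prod_univ_zero, mul_one, Category.comp_id, Category.comp_id,
        ev_univ]
    rw [h1, he]
  | succ n ih =>
    obtain ⟨P, pr, hP, h, hd, ⟨ρ, hρ⟩, hE⟩ := ih
    refine ⟨X.prod P, consPr pr, hS X P hX hP, h.succ, ?_, ⟨_, hπ.prod hρ⟩, fun e he => ?_⟩
    · rw [dim_prod, hd]; ring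
    · have h1 : epow (consPr pr) e = tens C e (epow pr e) := by
        unfold epow
        rw [Fin.prod_univ_succ, tens, map_prod]
        congr 1
        apply Finset.prod_congr rfl
        intro i _
        rw [pull_ev, prodMap_fst_assoc, prodMap_snd_assoc, consPr_succ]
      rw [h1, tens_comp', he, hE e he]

/-- If no power of `X` has phantoms then the motive of `X` is finite-dimensional. -/
theorem isKimuraFinite_on (hg : GradedCommutative H) {S : 𝒱.Obj → Prop}
    (hS : ∀ X Y, S X → S Y → S (X.prod Y)) {π : ℕ → C.A (X.prod X)} (hX : S X)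
    (hπ : IsCK H X π) (h : ∀ Y : 𝒱.Obj, S Y → (∃ ρ, IsCK H Y ρ) → NoPhantoms H Y) :
    IsKimuraFinite C (ratFam C) X := by
  obtain ⟨m, hm⟩ := cl_parPart hπ
  have hdies : ∀ s : Bool, Dies (ratFam C) s (ofA (parPart s π) (parPart_mem hπ s)) (m + 1) := by
    intro s
    obtain ⟨p, q, u, v, hu, hv, hp, hq, huv⟩ := hm s
    obtain ⟨P, pr, hSP, hP, hdim, hρ, hE⟩ := exists_pow_on hS hX hπ m
    set e := parPart s π with he
    let x : Fin (m + 1) → (P.prod P ⟶ X) := fun i => fst P P ≫ pr i
    let y : Fin (m + 1) → (P.prod P ⟶ X) := fun i => snd P P ≫ pr i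
    let D0 : C.A (P.prod P) := gd s (fun _ _ => e) x y
    let D : Cor C P := D0
    have hDD := hP.gd_mul s (hE e (parPart_idem hπ s)) (D := D) rfl
    set N : ℕ := Fintype.card (Equiv.Perm (Fin (m + 1))) with hN
    have hN0 : (N : ℚ) ≠ 0 := by
      have : 0 < N := Fintype.card_pos
      positivity
    have hDD' : D * D = (N : ℚ) • D := by rw [hDD, Nat.cast_smul_eq_nsmul]
    let p' : Cor C P := (N : ℚ)⁻¹ • D
    have hpp : p' * p' = p' := by
      simp only [p']
      rw [smul_mul_smul_comm, hDD', smul_smul, mul_assoc, inv_mul_cancel₀ hN0, mul_one]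
    have hDm : (D : C.A (P.prod P)) ∈ C.gr (P.prod P) P.dim := by
      have h1 := gd_mem s (ofA e (parPart_mem hπ s)) x y
      have h2 : ((m + 1 : ℕ) : ℤ) * X.dim = P.dim := by rw [hdim]; push_cast; ring
      rw [h2] at h1
      exact h1
    have hcl : H.cl D0 = 0 :=
      cl_gd_eq_zero hg s hu hv hp hq huv (Nat.lt_succ_self m) x y
    have hp0 : (p' : C.A (P.prod P)) = 0 := by
      apply h P hSP hρ (p' : C.A (P.prod P))
      · exact Submodule.smul_mem _ _ hDm
      · exact hpp
      · change H.cl ((N : ℚ)⁻¹ • D0) = 0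
        rw [← one_mul D0, ← smul_mul_assoc, map_mul, hcl, mul_zero]
    have hD0 : D0 = 0 := by
      have h0 : (N : ℚ)⁻¹ • D0 = 0 := hp0
      rw [← one_smul ℚ D0, ← mul_inv_cancel₀ hN0, mul_smul, h0, smul_zero]
    intro W x' y'
    obtain ⟨g1, h1⟩ := hP.exists_lift W x'
    obtain ⟨g2, h2⟩ := hP.exists_lift W y'
    have h3 := pull_gd s (Obj.lift g1 g2) (fun _ _ => e) x y
    have h4 : gd s (fun _ _ => e) x y = 0 := hD0
    rw [h4, map_zero] at h3
    have h5 : (fun i => Obj.lift g1 g2 ≫ x i) = x' := by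
      funext i
      simp only [x]
      rw [lift_fst_assoc, h1]
    have h6 : (fun i => Obj.lift g1 g2 ≫ y i) = y' := by
      funext i
      simp only [y]
      rw [lift_snd_assoc, h2]
    rw [h5, h6] at h3
    change gd s (fun _ _ => e) x' y' ∈ (⊥ : Submodule ℚ (C.A W))
    rw [← h3]
    exact Submodule.zero_mem _
  rw [isKimuraFinite_iff]
  refine ⟨ofA (parPart true π) (parPart_mem hπ true), ?_, ⟨m, hdies true⟩, ⟨m, ?_⟩⟩
  · have h1 : toA (ofA (parPart true π) (parPart_mem hπ true) *
        ofA (parPart true π) (parPart_mem hπ true) -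
        ofA (parPart true π) (parPart_mem hπ true)) = (0 : C.A (X.prod X)) := by
      rw [map_sub, toA_mul, toA_ofA, parPart_idem hπ, sub_self]
    rw [h1]
    exact Submodule.zero_mem _
  · have h1 : 1 - ofA (parPart true π) (parPart_mem hπ true) =
        ofA (parPart false π) (parPart_mem hπ false) := by
      apply toA_inj
      rw [map_sub, toA_one, toA_ofA, toA_ofA, ← parPart_add hπ true, Bool.not_true,
        add_sub_cancel_left]
    rw [h1]
    exact hdies false


/-- Without phantoms on the class the homologically trivial correspondences are nilpotent. -/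
theorem isNilpotent_on (hg : GradedCommutative H) {S : 𝒱.Obj → Prop}
    (hS : ∀ X Y, S X → S Y → S (X.prod Y)) {π : ℕ → C.A (X.prod X)} (hX : S X)
    (hπ : IsCK H X π) (h : ∀ Y : 𝒱.Obj, S Y → Triangular H Y) {x : R0 C X}
    (hx : H.cl (toA x) = 0) : IsNilpotent x :=
  isNilpotent_of_kimura (isKimuraFinite_on hg hS hX hπ fun Y hY hρ =>
    noPhantoms_of_triangular (h Y hY) hρ.choose_spec) hx

end Pool.Agent.Y148.MZ
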