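import Pool.Agent.Y148.MN.Lang
import Pool.Agent.Y110.Gc

/-!
# Murre's conjecture (B) and the middle codimension: definitions
-/

open CategoryTheory AlgebraicGeometry

universe u v w

namespace Pool.Agent.Y148.MZ

open Pool.Agent.H914 Pool.Agent.H914.VarClass Pool.Agent.H914.VarClass.Obj Pool.Agent.W492.BB
  Pool.Agent.Y148.BS Pool.Agent.Y148.SS Pool.Agent.Y148.MN

variable {k : Type u} [Field k] {𝒱 : VarClass k} {C : TheoryData.{u, v, 0} 𝒱 ℚ}
  {K : Type w} [Field K] (H : WeilTheoryData.{u, v, w} C K)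

/-- Murre's conjecture (A) for the variety `X`: it has a Chow-Kunneth decomposition. -/
def MurreA (X : 𝒱.Obj) : Prop := ∃ π : ℕ → C.A (X.prod X), IsChowKunneth H π

/-- Murre's conjecture (B) for the variety `X` and all its Chow-Kunneth decompositions:
`F^0 CH^j(X) = CH^j(X)` and `F^(j+1) CH^j(X) = 0` for all `j`. -/
def MurreB (X : 𝒱.Obj) : Prop :=
  ∀ π : ℕ → C.A (X.prod X), IsChowKunneth H π → ∀ (j : ℕ) (z : C.A X),
    (C.Deg j z → InStep π j 0 z) ∧ (InStep π j (j + 1) z → z = 0)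

/-- Murre's conjecture (C) for the variety `X`: the filtration does not depend on the choice of the
Chow-Kunneth decomposition. -/
def MurreC (X : 𝒱.Obj) : Prop :=
  ∀ π π' : ℕ → C.A (X.prod X), IsChowKunneth H π → IsChowKunneth H π' →
    ∀ (j ν : ℕ) (z : C.A X), InStep π j ν z ↔ InStep π' j ν z

/-- If the dimension of `X` is `2j`: `F^0 CH^j(X) = CH^j(X)` for all Chow-Kunneth decompositions of
`X` (the first half of (B) in the middle codimension). -/
def MiddleZeroIsAll (X : 𝒱.Obj) : Prop :=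
  ∀ j : ℕ, X.dim = 2 * j → ∀ π : ℕ → C.A (X.prod X), IsChowKunneth H π →
    ∀ z : C.A X, C.Deg j z → InStep π j 0 z

/-- If the dimension of `X` is `2j`: the self-correspondences of degree zero of `X` which are
homologically trivial or homologically equivalent to the projector onto the `H^i(X)` with
`i > 2j` act locally nilpotently on `CH^j(X)`. -/
def NilpotentInMiddle (X : 𝒱.Obj) : Prop :=
  ∀ j : ℕ, X.dim = 2 * j → ∀ Γ : C.A (X.prod X), C.Deg X.dim Γ →
    (IsHomTrivial H Γ ∨ IsUpperProjector H (2 * j + 1) Γ) →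
      ∀ z : C.A X, C.Deg j z → ∃ n : ℕ, (C.act Γ)^[n] z = 0

/-- If the dimension of `X` is `2j`: the self-correspondences of degree zero of `X` which act as zero
on `H^i(X)` for `i ≤ 2j` act locally nilpotently on `CH^j(X)`. -/
def NilpotentIfKills (X : 𝒱.Obj) : Prop :=
  ∀ j : ℕ, X.dim = 2 * j → ∀ Γ : C.A (X.prod X), C.Deg X.dim Γ →
    (∀ i : ℕ, i ≤ 2 * j → Kills H Γ i) →
      ∀ z : C.A X, C.Deg j z → ∃ n : ℕ, (C.act Γ)^[n] z = 0

end Pool.Agent.Y148.MZ
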