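import Pool.Agent.Y148.MZ.Lang
import Pool.Agent.Y148.MZ.Kim
import Pool.Agent.Y148.MN.Final

/-!
# Murre's conjecture (B) and the middle codimension
-/

open CategoryTheory AlgebraicGeometry

universe u v w

namespace Pool.Agent.Y148.MZ

open Pool.Agent.H914 Pool.Agent.H914.VarClass Pool.Agent.H914.VarClass.Obj Pool.Agent.W492.BB
  Pool.Agent.W550.Corr Pool.Agent.TH133 Pool.Agent.TH829.Kim Pool.Agent.Y148 Pool.Agent.Y148.BS
  Pool.Agent.Y148.SS Pool.Agent.Y148.KL Pool.Agent.Y110 Pool.Agent.Y148.BB Pool.Agent.Y148.MN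

set_option linter.unusedSectionVars false
set_option linter.unusedVariables false

variable {k : Type u} [Field k] {𝒱 : VarClass k} {C : TheoryData.{u, v, 0} 𝒱 ℚ}
  [hC : IsChowProj C] {K : Type w} [Field K]
  {H : WeilTheoryData.{u, v, w} C K} [hH : IsWeilProj H] {X Y Z W P T R : 𝒱.Obj}

/-! ### Translations -/

lemma inStep_fil {π : ℕ → C.A (X.prod X)} (hπ : IsCK H X π) {j ν : ℕ} {z : C.A X} :
    InStep π j ν z ↔ z ∈ fil C π j ν := by
  rw [KL.inStep_iff, ← Y110.fil_eq_ckFil hπ j ν]

lemma midZero_iff : MiddleZeroIsAll H X ↔ ∀ j : ℕ, X.dim = 2 * j → ∀ π : ℕ → C.A (X.prod X),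
    IsCK H X π → ∀ z : C.A X, C.Deg j z → ∀ b : ℕ, 2 * j < b → C.act (π b) z = 0 := by
  constructor
  · intro h j hj π hπ z hz b hb
    have h1 := h j hj π (KL.isChowKunneth_iff.2 hπ) z hz
    rw [inStep_fil hπ] at h1
    have h2 := (mem_fil hπ _ _ _).1 h1
    exact h2.2 b (by push_cast; omega)
  · intro h j hj π hπ z hz
    have hπ' := KL.isChowKunneth_iff.1 hπ
    rw [inStep_fil hπ', mem_fil hπ']
    exact ⟨hz, fun b hb => h j hj π hπ' z hz b (by push_cast at hb; omega)⟩

lemma zeroIsAll_iff {j : ℕ} : ZeroIsAll H X j ↔ ∀ π : ℕ → C.A (X.prod X),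
    IsCK H X π → ∀ z : C.A X, C.Deg j z → ∀ b : ℕ, 2 * j < b → C.act (π b) z = 0 := by
  constructor
  · intro h π hπ z hz b hb
    have h1 : z ∈ fil C π j 0 := by rw [h π hπ]; exact hz
    exact ((mem_fil hπ _ _ _).1 h1).2 b (by omega)
  · intro h π hπ
    ext z
    rw [mem_fil hπ]
    exact ⟨fun hz => hz.1, fun hz => ⟨hz, fun b hb => h π hπ z hz b (by omega)⟩⟩

lemma zeroIsAll_of_murreC (h : MurreC H X) (i : ℕ) : ZeroIsAll H X i := by
  refine zeroIsAll_of_indepZero (fun i π π' hπ hπ' => ?_) i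
  ext z
  have h2 := h π π' (KL.isChowKunneth_iff.2 hπ) (KL.isChowKunneth_iff.2 hπ') i 0 z
  rw [inStep_fil hπ, inStep_fil hπ'] at h2
  exact h2

lemma murreC_of_independent (h : Independent H X) : MurreC H X := by
  intro π π' hπ hπ' j ν z
  have hπ2 := KL.isChowKunneth_iff.1 hπ
  have hπ2' := KL.isChowKunneth_iff.1 hπ'
  rw [inStep_fil hπ2, inStep_fil hπ2', h π π' hπ2 hπ2' j ν]

lemma triangular_of_mid (h : MiddleZeroIsAll H (X.prod X)) : Triangular H X :=
  triangular_of_diag (diag_of_zeroIsAll (zeroIsAll_iff.2 (midZero_iff.1 h X.dim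
    (by rw [dim_prod]; ring))))

/-- The local nilpotence of homologically trivial correspondences. -/
def LocNil (H : WeilTheoryData.{u, v, w} C K) (X : 𝒱.Obj) : Prop :=
  ∀ Γ : C.A (X.prod X), C.Deg X.dim Γ → H.cl Γ = 0 → ∀ z : C.A X, ∃ n : ℕ,
    (C.act Γ)^[n] z = 0

omit hC in
lemma iter_zero [IsChowProj C] {Γ : C.A (X.prod X)} {z : C.A X} {n : ℕ}
    (h : (C.act Γ)^[n] z = 0) (m : ℕ) : (C.act Γ)^[n + m] z = 0 := by
  rw [add_comm, Function.iterate_add_apply, h]
  induction m with
  | zero => rfl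
  | succ m ih => rw [Function.iterate_succ', Function.comp_apply, ih, TheoryData.act_map_zero]

lemma locNil_of_R0 (h : ∀ x : R0 C X, H.cl (toA x) = 0 → IsNilpotent x) : LocNil H X := by
  intro Γ hΓ hcl z
  obtain ⟨n, hn⟩ := h (ofA Γ hΓ) hcl
  have hiter : ∀ n : ℕ, (C.act Γ)^[n] z = C.act (toA (ofA Γ hΓ ^ n)) z := by
    intro n
    induction n with
    | zero => rw [pow_zero, toA_one, act_dg]; rfl
    | succ n ih =>
      rw [Function.iterate_succ', Function.comp_apply, ih, pow_succ', toA_mul, C.act_comp]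
      rfl
  refine ⟨n, ?_⟩
  rw [hiter, hn, map_zero, TheoryData.act_zero]

lemma locNil_of_cor (h : ∀ N : Cor C X, N ∈ cor0 C X → H.cl (N : C.A (X.prod X)) = 0 →
    IsNilpotent N) : LocNil H X :=
  locNil_of_R0 fun x hx => by
    obtain ⟨n, hn⟩ := h (x : Cor C X) x.2 hx
    exact ⟨n, Subtype.ext hn⟩

/-- The sum of the projectors of weight at most `2j`. -/
noncomputable def low (π : ℕ → C.A (X.prod X)) (j : ℕ) : C.A (X.prod X) :=
  ∑ i ∈ Finset.range (2 * j + 1), π i

lemma low_mem {π : ℕ → C.A (X.prod X)} (hπ : IsCK H X π) (j : ℕ) :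
    low π j ∈ C.gr (X.prod X) X.dim := Submodule.sum_mem _ fun i _ => hπ.deg i

lemma act_low {π : ℕ → C.A (X.prod X)} (hπ : IsCK H X π) {j : ℕ} {z : C.A X}
    (hz : ∀ b : ℕ, 2 * j < b → C.act (π b) z = 0) : C.act (low π j) z = z := by
  have h1 : z = ∑ a ∈ Finset.range (2 * X.dim + 1), C.act (π a) z := by
    rw [← act_sum, hπ.sum, act_dg]
  rw [low, act_sum]
  conv_rhs => rw [h1]
  rcases le_total (2 * j) (2 * X.dim) with h | h
  · refine Finset.sum_subset (Finset.range_subset_range.2 (by omega)) fun i _ hi => ?_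
    rw [Finset.mem_range, not_lt] at hi
    exact hz i (by omega)
  · refine (Finset.sum_subset (Finset.range_subset_range.2 (by omega)) fun i _ hi => ?_).symm
    rw [Finset.mem_range, not_lt] at hi
    rw [hπ.out i (by omega), TheoryData.act_zero]

lemma lowH {π : ℕ → C.A (X.prod X)} (hπ : IsCK H X π) (j : ℕ) {l : ℤ} {a : H.A X}
    (ha : a ∈ H.gr X l) (hl : 2 * (j : ℤ) < l) : H.act (H.cl (low π j)) a = 0 := by
  rw [low, map_sum, act_sum]
  refine Finset.sum_eq_zero fun i hi => ?_
  rw [hπ.actH_eq i l ha, if_neg]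
  rw [Finset.mem_range] at hi
  omega

lemma kills_comp_right {Γ : C.A (X.prod Y)} {Δ : C.A (Y.prod Z)} {l : ℤ} (h : Kills H Γ l) :
    Kills H (C.comp Γ Δ) l := by
  intro a ha
  rw [actH_comp, h a ha, TheoryData.act_map_zero]

/-- Under the first half of (B) in codimension `j`, a correspondence which acts as zero on the
`H^i(X)`, `i ≤ 2j`, acts locally nilpotently on `CH^j(X)`. -/
lemma locNil_low (hnil : LocNil H X) {π : ℕ → C.A (X.prod X)} (hπ : IsCK H X π) {j : ℕ}
    (h0 : ∀ z : C.A X, C.Deg j z → ∀ b : ℕ, 2 * j < b → C.act (π b) z = 0)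
    {Γ : C.A (X.prod X)} (hΓ : C.Deg X.dim Γ) (hk : ∀ i : ℕ, i ≤ 2 * j → Kills H Γ i)
    {z : C.A X} (hz : C.Deg j z) : ∃ n : ℕ, (C.act Γ)^[n] z = 0 := by
  set L := low π j with hL
  set G := C.comp (C.comp L Γ) L with hG
  have e0 : ∀ {x : C.A (X.prod X)}, x ∈ C.gr (X.prod X) X.dim →
      x ∈ C.gr (X.prod X) (X.dim + (0 : ℤ)) := by
    intro x hx
    rwa [add_zero]
  have hGm : G ∈ C.gr (X.prod X) X.dim := by
    have h1 := comp_mem C (comp_mem C (e0 (low_mem hπ j)) (e0 hΓ)) (e0 (low_mem hπ j))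
    exact gr_congr (by ring) h1
  have hGc : H.cl G = 0 := by
    apply hom_zero_of_act
    intro x
    apply act_eq_zero_of_kills
    intro l a ha
    have h1 : H.act (H.cl (C.comp L Γ)) a = 0 := by
      rw [actH_comp]
      rcases lt_or_ge (2 * (j : ℤ)) l with hl | hl
      · rw [lowH hπ j ha hl, TheoryData.act_map_zero]
      · by_cases hl0 : l < 0
        · have ha' : a ∈ H.gr X l := ha
          rw [H.gr_neg X l hl0] at ha'
          rw [(Submodule.mem_bot _).1 ha', TheoryData.act_map_zero, TheoryData.act_map_zero]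
        · obtain ⟨m, rfl⟩ := Int.eq_ofNat_of_zero_le (not_lt.1 hl0)
          have h2 : H.act (H.cl L) a ∈ H.gr X (m : ℤ) := by
            have h3 := actH_mem H (e0 (low_mem hπ j)) (show a ∈ H.gr X (m : ℤ) from ha)
            exact h_congr (by ring) h3
          exact hk m (by omega) _ h2
    rw [hG, actH_comp, h1, TheoryData.act_map_zero]
  have hdeg : ∀ n : ℕ, C.Deg j ((C.act Γ)^[n] z) := by
    intro n
    induction n with
    | zero => exact hz
    | succ n ih => rw [Function.iterate_succ', Function.comp_apply]; exact act_mem0 C hΓ ih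
  have hiter : ∀ n : ℕ, (C.act G)^[n] z = (C.act Γ)^[n] z := by
    intro n
    induction n with
    | zero => rfl
    | succ n ih =>
      rw [Function.iterate_succ', Function.iterate_succ', Function.comp_apply,
        Function.comp_apply, ih, hG, C.act_comp, C.act_comp, act_low hπ (h0 _ (hdeg n))]
      exact act_low hπ (h0 _ (act_mem0 C hΓ (hdeg n)))
  obtain ⟨n, hn⟩ := hnil G hGm hGc z
  exact ⟨n, by rw [← hiter, hn]⟩

/-- The projectors of weight less than `i` kill `CH^i(X)`. -/
theorem vanishing (hK : KunnethConjecture H) {A : ∀ X : 𝒱.Obj, C.A X → Prop}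
    (hA : HasHyperplaneSections H A) (hnil : LocNil H X) {π : ℕ → C.A (X.prod X)}
    (hπ : IsCK H X π) {m i : ℕ} (hmi : m < i) {x : C.A X} (hx : C.Deg i x) :
    C.act (π m) x = 0 := by
  by_cases hmd : m ≤ X.dim
  swap
  · have h1 : x = 0 := hC.gr_top X i x hx (by omega)
    rw [h1, TheoryData.act_map_zero]
  obtain ⟨Y, f, g, hY, hf, hg, hfg⟩ := exists_summand hK hA X hmd
  have hΓ : dg C X - C.comp f g ∈ C.gr (X.prod X) X.dim :=
    comp_mem_of (H := H) (e := 0) (by rwa [add_zero]) (by rwa [sub_zero])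
  have e0 : ∀ {x : C.A (X.prod X)}, x ∈ C.gr (X.prod X) X.dim →
      x ∈ C.gr (X.prod X) (X.dim + (0 : ℤ)) := by
    intro x hx
    rwa [add_zero]
  set N := C.comp (π m) (dg C X - C.comp f g) with hN
  have hNm : N ∈ C.gr (X.prod X) X.dim := by
    have h1 := comp_mem C (e0 (hπ.deg m)) (e0 hΓ)
    exact gr_congr (by ring) h1
  have hNc : H.cl N = 0 := by
    apply hom_zero_of_act
    intro y
    apply act_eq_zero_of_kills
    intro l a ha
    rw [hN, actH_comp, hπ.actH_eq m l ha]
    split_ifs with hl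
    · rw [actH_sub_comp, hfg a (hl ▸ ha), sub_self]
    · rw [TheoryData.act_map_zero]
  have hact : ∀ w : C.A X, C.Deg i w → C.act N w = C.act (π m) w := by
    intro w hw
    have hw' : C.Deg i (C.act (π m) w) := act_mem0 C (hπ.deg m) hw
    have h3 : C.act f (C.act (π m) w) ∈ C.gr Y i := by
      have := act_mem' C (e := 0) (by rwa [add_zero]) hw' (Γ := f)
      rwa [add_zero] at this
    rw [hN, C.act_comp, act_sub_comp, hC.gr_top Y i _ h3 (by omega), TheoryData.act_map_zero,
      sub_zero]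
  have hiter : ∀ n : ℕ, (C.act N)^[n + 1] x = C.act (π m) x := by
    intro n
    induction n with
    | zero => exact hact x hx
    | succ n ih =>
      rw [Function.iterate_succ', Function.comp_apply, ih,
        hact _ (act_mem0 C (hπ.deg m) hx), ← C.act_comp, hπ.idem]
  obtain ⟨n, hn⟩ := hnil N hNm hNc x
  rw [← hiter n]
  exact iter_zero hn 1

/-! ### Middle summands -/

/-- The local nilpotence of homologically trivial correspondences passes to middle summands. -/
theorem nilpotent_of_summand (h : IsMiddleSummand C X R) (hR : NilpotentInMiddle H R) {j : ℕ}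
    (hj : X.dim = 2 * j) {Γ : C.A (X.prod X)} (hΓ : C.Deg X.dim Γ) (hk : H.cl Γ = 0)
    {z : C.A X} (hz : C.Deg j z) : ∃ n : ℕ, (C.act Γ)^[n] z = 0 := by
  obtain ⟨c, f, g, hd, hf, hg, hfg⟩ := h
  have hfg' : C.comp f g = dg C X := hfg
  set G : C.A (R.prod R) := C.comp (C.comp g Γ) f with hG
  have hg' : g ∈ C.gr (R.prod X) (R.dim + (-(c : ℤ))) := by
    rw [← sub_eq_add_neg]
    exact hg
  have hΓ' : Γ ∈ C.gr (X.prod X) (X.dim + (0 : ℤ)) := by rw [add_zero]; exact hΓ
  have hf' : f ∈ C.gr (X.prod R) (X.dim + (c : ℤ)) := hf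
  have hGm : G ∈ C.gr (R.prod R) R.dim := by
    have h1 := comp_mem C (comp_mem C hg' hΓ') hf'
    rw [hG]
    exact gr_congr (by ring) h1
  have hact : ∀ w : C.A X, C.act G (C.act f w) = C.act f (C.act Γ w) := by
    intro w
    rw [hG, C.act_comp, C.act_comp]
    congr 2
    rw [← C.act_comp, hfg', act_dg]
  have hGc : H.cl G = 0 := by
    apply hom_zero_of_act
    intro a
    rw [hG, actH_comp, actH_comp, hk, TheoryData.act_zero, TheoryData.act_map_zero]
  obtain ⟨n, hn⟩ := hR (j + c) (by rw [hd, hj]; ring) G hGm (Or.inl hGc) (C.act f z)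
    (by have := act_deg_sub hf hz; exact_mod_cast this)
  exact ⟨n, iter_of_summand hfg' hact hn⟩

/-- Local nilpotence in the middle codimension gives the nilpotence of homologically trivial
correspondences. -/
theorem isNilpotent_of_mid (h : IsMiddleSummand C (X.prod X) R) (hR : NilpotentInMiddle H R)
    {Γ : Cor C X} (hΓ : Γ ∈ cor0 C X) (hcl : H.cl (Γ : C.A (X.prod X)) = 0) :
    IsNilpotent Γ := by
  set G : C.A ((X.prod X).prod (X.prod X)) := tens C (dg C X) Γ with hG
  have hGm : G ∈ C.gr ((X.prod X).prod (X.prod X)) (X.prod X).dim := by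
    have h1 := tens_mem C (dg_mem C X) (mem_cor0.1 hΓ)
    exact gr_congr (by simp only [dim_prod]; push_cast; ring) h1
  have hGc : H.cl G = 0 := by
    rw [hG, cl_tens, hcl]
    change H.pull _ _ * H.pull _ 0 = 0
    rw [map_zero, mul_zero]
  have hact : ∀ Γ' : C.A (X.prod X), C.act G Γ' = C.comp Γ' Γ := by
    intro Γ'
    rw [hG, act_tens C (ch_comm C), tp_dg, dg_comp]
  have hiter : ∀ n : ℕ, (C.act G)^[n] (Γ : C.A (X.prod X)) =
      ((Γ ^ (n + 1) : Cor C X) : C.A (X.prod X)) := by
    intro n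
    induction n with
    | zero => rw [Function.iterate_zero, id_eq, zero_add, pow_one]
    | succ n ih =>
      rw [Function.iterate_succ', Function.comp_apply, ih, hact, pow_succ' Γ (n + 1)]
      rfl
  obtain ⟨n, hn⟩ := nilpotent_of_summand h hR (j := X.dim) (by rw [dim_prod]; ring) hGm hGc
    (mem_cor0.1 hΓ)
  refine ⟨n + 1, ?_⟩
  rw [hiter] at hn
  exact hn

/-- Local nilpotence in the middle codimension gives the first half of (B) in the middle
codimension. -/
theorem middleZero_of_mid (h : IsMiddleSummand C X R) (hR : NilpotentInMiddle H R)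
    (hCK : ∃ ρ, IsCK H R ρ) : MiddleZeroIsAll H X := by
  obtain ⟨ρ, hρ⟩ := hCK
  obtain ⟨c, f, g, hd, hf, hg, hfg⟩ := h
  have hfg' : C.comp f g = dg C X := hfg
  have hg' : g ∈ C.gr (R.prod X) (R.dim + (-(c : ℤ))) := by
    rw [← sub_eq_add_neg]
    exact hg
  have hf' : f ∈ C.gr (X.prod R) (X.dim + (c : ℤ)) := hf
  rw [midZero_iff]
  intro j hj π hπ z hz b hb
  set q := upper π (2 * j + 1) with hq
  set p := upper ρ (2 * (j + c) + 1) with hp
  have hqm : q ∈ C.gr (X.prod X) X.dim := upper_mem hπ _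
  have hpm : p ∈ C.gr (R.prod R) R.dim := upper_mem hρ _
  have hqH := upper_actH hπ (2 * j + 1)
  have hpH := upper_actH hρ (2 * (j + c) + 1)
  set e := dg C R - C.comp g f with he
  have hem : e ∈ C.gr (R.prod R) R.dim := by
    have h1 := comp_mem C hg' hf'
    exact Submodule.sub_mem _ (dg_mem C R) (gr_congr (by ring) h1)
  have hef : ∀ w : C.A X, C.act e (C.act f w) = 0 := by
    intro w
    have h1 : C.act (C.comp g f) (C.act f w) = C.act f w := by
      rw [C.act_comp, ← C.act_comp f g, hfg', act_dg]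
    rw [he, TheoryData.act_sub, act_dg, h1, sub_self]
  have heH : ∀ a : H.A R, H.act (H.cl e) a = a - H.act (H.cl f) (H.act (H.cl g) a) := by
    intro a
    rw [he]
    exact actH_sub_comp g f a
  have hfgH : ∀ a : H.A X, H.act (H.cl g) (H.act (H.cl f) a) = a := by
    intro a
    rw [← actH_comp, hfg', actH_dg]
  set G : C.A (R.prod R) := C.comp (C.comp g q) f + C.comp (C.comp e p) e with hG
  have hGm : G ∈ C.gr (R.prod R) R.dim := by
    have e0 : ∀ {Y : 𝒱.Obj} {x : C.A (Y.prod Y)}, x ∈ C.gr (Y.prod Y) Y.dim →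
        x ∈ C.gr (Y.prod Y) (Y.dim + (0 : ℤ)) := by
      intro Y x hx
      rwa [add_zero]
    have h1 := comp_mem C (comp_mem C hg' (e0 hqm)) hf'
    have h2 := comp_mem C (comp_mem C (e0 hem) (e0 hpm)) (e0 hem)
    exact Submodule.add_mem _ (gr_congr (by ring) h1) (gr_congr (by ring) h2)
  have hact : ∀ w : C.A X, C.act G (C.act f w) = C.act f (C.act q w) := by
    intro w
    have h1 : C.act (C.comp (C.comp g q) f) (C.act f w) = C.act f (C.act q w) := by
      rw [C.act_comp, C.act_comp, ← C.act_comp f g, hfg', act_dg]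
    have h2 : C.act (C.comp (C.comp e p) e) (C.act f w) = 0 := by
      rw [C.act_comp, C.act_comp, hef, TheoryData.act_map_zero, TheoryData.act_map_zero]
    rw [hG, TheoryData.act_add, h1, h2, add_zero]
  have hGH : IsUpperProjector H (2 * (j + c) + 1) G := by
    intro i a ha
    have ha' : a ∈ H.gr R i := ha
    have hga : H.act (H.cl g) a ∈ H.gr X (i - 2 * c) := by
      have h2 := actH_mem H hg' ha'
      exact h_congr (by ring) h2
    have hfga : H.act (H.cl f) (H.act (H.cl g) a) ∈ H.gr R i := by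
      have h2 := actH_mem H hf' hga
      exact h_congr (by ring) h2
    have hea : H.act (H.cl e) a ∈ H.gr R i := by
      rw [heH]
      exact Submodule.sub_mem _ ha' hfga
    have h1 : H.act (H.cl (C.comp (C.comp g q) f)) a =
        if ((2 * (j + c) + 1 : ℕ) : ℤ) ≤ i then
        H.act (H.cl f) (H.act (H.cl g) a) else 0 := by
      rw [actH_comp, actH_comp]
      have h3 := hqH _ _ hga
      change H.act (H.cl q) _ = _ at h3
      rw [h3]
      by_cases hi : ((2 * (j + c) + 1 : ℕ) : ℤ) ≤ i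
      · rw [if_pos hi, if_pos (by push_cast at hi ⊢; omega)]
      · rw [if_neg hi, if_neg (by push_cast at hi ⊢; omega), TheoryData.act_map_zero]
    have h2 : H.act (H.cl (C.comp (C.comp e p) e)) a =
        if ((2 * (j + c) + 1 : ℕ) : ℤ) ≤ i then H.act (H.cl e) a else 0 := by
      rw [actH_comp, actH_comp]
      have h3 := hpH _ _ hea
      change H.act (H.cl p) _ = _ at h3
      rw [h3]
      by_cases hi : ((2 * (j + c) + 1 : ℕ) : ℤ) ≤ i
      · rw [if_pos hi, heH, heH]
        have h4 : H.act (H.cl g) (a - H.act (H.cl f) (H.act (H.cl g) a)) = 0 := by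
          have h5 := map_sub (H.actL (H.cl g)) a (H.act (H.cl f) (H.act (H.cl g) a))
          change H.act (H.cl g) (a - H.act (H.cl f) (H.act (H.cl g) a)) =
            H.act (H.cl g) a - H.act (H.cl g) (H.act (H.cl f) (H.act (H.cl g) a)) at h5
          rw [h5, hfgH, sub_self]
        rw [h4, TheoryData.act_map_zero, sub_zero]
      · rw [if_neg hi, TheoryData.act_map_zero]
    change H.act (H.cl G) a = _
    rw [hG, map_add, TheoryData.act_add, h1, h2]
    by_cases hi : ((2 * (j + c) + 1 : ℕ) : ℤ) ≤ i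
    · rw [if_pos hi, if_pos hi, if_pos hi, heH, add_sub_cancel]
    · rw [if_neg hi, if_neg hi, if_neg hi, add_zero]
  obtain ⟨n, hn⟩ := hR (j + c) (by rw [hd, hj]; ring) G hGm (Or.inr hGH) (C.act f z)
    (by have := act_deg_sub hf hz; exact_mod_cast this)
  have hn' := iter_of_summand hfg' hact hn
  -- the operator `q` is idempotent
  have hπq : ∀ i : ℕ, 2 * j + 1 ≤ i → C.comp q (π i) = π i := by
    intro i hi
    by_cases hid : i ≤ 2 * X.dim
    · rw [hq, upper, sum_comp, Finset.sum_eq_single i]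
      · exact hπ.idem i
      · intro l _ hl
        exact hπ.orth l i hl
      · intro h
        exact absurd (Finset.mem_filter.2 ⟨Finset.mem_range.2 (by omega), hi⟩) h
    · rw [hπ.out i (by omega), comp_zero]
  have hqq : C.comp q q = q := by
    conv_lhs => rw [hq, upper, comp_sum]
    conv_rhs => rw [hq, upper]
    exact Finset.sum_congr rfl fun i hi => hπq i (Finset.mem_filter.1 hi).2
  have hiter : ∀ n : ℕ, (C.act q)^[n + 1] z = C.act q z := by
    intro n
    induction n with
    | zero => rfl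
    | succ n ih => rw [Function.iterate_succ', Function.comp_apply, ih, ← C.act_comp, hqq]
  have hqz : C.act q z = 0 := by
    rcases n with _ | n
    · have h0 : z = 0 := hn'
      rw [h0, TheoryData.act_map_zero]
    · rwa [hiter] at hn'
  rw [← hπq b hb, C.act_comp, hqz, TheoryData.act_map_zero]

end Pool.Agent.Y148.MZ
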